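import Pool.Agent.H92.EHD.TP
import Pool.Agent.H95.EQ.PLL

/-!
Row EG0 of ehd_modules: logarithms of polynomials are integrable against Gaussians.
-/

namespace Pool.Agent.H95.EHD

open scoped BigOperators ComplexConjugate ENNReal
open MeasureTheory Pool.Agent.H92.EQ Pool.Agent.H92.EHD Pool.Agent.H95.EQ

theorem nsq_nn0 {k : ℕ} (w : Fin k → ℂ) : 0 ≤ nsq w :=
  Finset.sum_nonneg fun _ _ => sq_nonneg _

theorem continuous_nsq {k : ℕ} : Continuous (nsq : (Fin k → ℂ) → ℝ) := by
  unfold nsq
  fun_prop

theorem gauss_int (k : ℕ) {c : ℝ} (hc : 0 < c) :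
    Integrable (fun w : Fin k → ℂ => Real.exp (-(c * nsq w))) := by
  have h2 := GaussianFourier.integral_rexp_neg_mul_sq_norm (V := ℂ) hc
  rw [Complex.finrank_real_complex] at h2
  have h3 : ∫ t : ℂ, Real.exp (-c * ‖t‖ ^ 2) = Real.pi / c := by
    rw [h2]
    norm_num
  have h4 : Integrable fun t : ℂ => Real.exp (-c * ‖t‖ ^ 2) := by
    by_contra hcon
    rw [integral_undef hcon] at h3
    exact (div_pos Real.pi_pos hc).ne h3
  have h5 : Integrable (fun x : Fin k → ℂ => ∏ j, Real.exp (-c * ‖x j‖ ^ 2)) :=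
    Integrable.fintype_prod (f := fun _ : Fin k => fun t : ℂ =>
      Real.exp (-c * ‖t‖ ^ 2)) fun _ => h4
  refine h5.congr (Filter.Eventually.of_forall fun w => ?_)
  simp only
  rw [← Real.exp_sum]
  congr 1
  unfold nsq
  rw [Finset.mul_sum, ← Finset.sum_neg_distrib]
  exact Finset.sum_congr rfl fun i _ => by ring

/-- polynomial growth -/
theorem growth {k : ℕ} (R : MvPolynomial (Fin k) ℂ) :
    ∃ (C : ℝ) (m : ℕ), 1 ≤ C ∧ ∀ w : Fin k → ℂ,
      ‖MvPolynomial.eval w R‖ ≤ C * (1 + nsq w) ^ m := by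
  induction R using MvPolynomial.induction_on with
  | C c =>
    refine ⟨1 + ‖c‖, 0, by linarith [norm_nonneg c], fun w => ?_⟩
    rw [MvPolynomial.eval_C, pow_zero, mul_one]
    linarith
  | add p q hp hq =>
    obtain ⟨C1, m1, h1, hp⟩ := hp
    obtain ⟨C2, m2, h2, hq⟩ := hq
    refine ⟨C1 + C2, m1 + m2, by linarith, fun w => ?_⟩
    have hb : (1 : ℝ) ≤ 1 + nsq w := by linarith [nsq_nn0 w]
    have e1 : (1 + nsq w) ^ m1 ≤ (1 + nsq w) ^ (m1 + m2) := pow_le_pow_right₀ hb (by omega)
    have e2 : (1 + nsq w) ^ m2 ≤ (1 + nsq w) ^ (m1 + m2) := pow_le_pow_right₀ hb (by omega)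
    rw [map_add]
    calc ‖MvPolynomial.eval w p + MvPolynomial.eval w q‖ ≤
          ‖MvPolynomial.eval w p‖ + ‖MvPolynomial.eval w q‖ := norm_add_le _ _
      _ ≤ C1 * (1 + nsq w) ^ m1 + C2 * (1 + nsq w) ^ m2 := add_le_add (hp w) (hq w)
      _ ≤ C1 * (1 + nsq w) ^ (m1 + m2) + C2 * (1 + nsq w) ^ (m1 + m2) :=
          add_le_add (mul_le_mul_of_nonneg_left e1 (by linarith))
            (mul_le_mul_of_nonneg_left e2 (by linarith))
      _ = (C1 + C2) * (1 + nsq w) ^ (m1 + m2) := by ring
  | mul_X p i hp =>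
    obtain ⟨C1, m1, h1, hp⟩ := hp
    refine ⟨C1, m1 + 1, h1, fun w => ?_⟩
    have hn := nsq_nn0 w
    rw [map_mul, MvPolynomial.eval_X, norm_mul, pow_succ, ← mul_assoc]
    have h3 : ‖w i‖ ^ 2 ≤ nsq w := by
      unfold nsq
      exact Finset.single_le_sum (f := fun i => ‖w i‖ ^ 2) (fun _ _ => sq_nonneg _)
        (Finset.mem_univ i)
    have h4 : ‖w i‖ ≤ 1 + nsq w := by nlinarith [sq_nonneg (‖w i‖ - 1), norm_nonneg (w i)]
    exact mul_le_mul (hp w) h4 (norm_nonneg _) (by positivity)

theorem nsq_add_le {k : ℕ} (a v : Fin k → ℂ) : nsq (a + v) ≤ 2 * nsq a + 2 * nsq v := by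
  unfold nsq
  rw [Finset.mul_sum, Finset.mul_sum, ← Finset.sum_add_distrib]
  refine Finset.sum_le_sum fun i _ => ?_
  rw [Pi.add_apply]
  have h := norm_add_le (a i) (v i)
  have h0 := norm_nonneg (a i + v i)
  nlinarith [sq_nonneg (‖a i‖ - ‖v i‖)]

theorem nsq_rot {k : ℕ} (e : ℂ) (he : ‖e‖ = 1) (v : Fin k → ℂ) : nsq (e • v) = nsq v := by
  unfold nsq
  refine Finset.sum_congr rfl fun i _ => ?_
  rw [Pi.smul_apply, smul_eq_mul, norm_mul, he, one_mul]

theorem pf_EG0 : T_EG0 := by
  intro k R hR
  obtain ⟨a, ha⟩ : ∃ a : Fin k → ℂ, MvPolynomial.eval a R ≠ 0 := by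
    by_contra hcon
    push Not at hcon
    exact hR (MvPolynomial.funext fun x => by rw [hcon x, map_zero])
  obtain ⟨C, m, hC, hgr⟩ := growth R
  have hcont : Continuous fun z : Fin k → ℂ => MvPolynomial.eval z R :=
    MvPolynomial.continuous_eval R
  -- the upper bound
  set A : ℝ := Real.log C + 2 * m * nsq a with hA
  have hA0 : 0 ≤ A := by
    have h1 := Real.log_nonneg hC
    have h2 := nsq_nn0 a
    positivity
  set U : (Fin k → ℂ) → ℝ := fun v => A + 2 * m * nsq v with hU
  have hU0 : ∀ v, 0 ≤ U v := by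
    intro v
    have h2 := nsq_nn0 v
    rw [hU]
    positivity
  have hlogU : ∀ v, Real.log ‖MvPolynomial.eval (a + v) R‖ ≤ U v := by
    intro v
    rcases (norm_nonneg (MvPolynomial.eval (a + v) R)).eq_or_lt with h0 | h0
    · rw [← h0, Real.log_zero]
      exact hU0 v
    · have h1 := Real.log_le_log h0 (hgr (a + v))
      have hn := nsq_nn0 (a + v)
      rw [Real.log_mul (by positivity) (by positivity), Real.log_pow] at h1
      have h2 : Real.log (1 + nsq (a + v)) ≤ nsq (a + v) := by
        have := Real.log_le_sub_one_of_pos (show 0 < 1 + nsq (a + v) by positivity)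
        linarith
      have h3 := nsq_add_le a v
      have h4 : (m : ℝ) * Real.log (1 + nsq (a + v)) ≤ m * (2 * nsq a + 2 * nsq v) :=
        mul_le_mul_of_nonneg_left (h2.trans h3) (Nat.cast_nonneg m)
      rw [hU, hA]
      linarith
  set W : (Fin k → ℂ) → ℝ := fun v => Real.exp (-(1 / 2 * nsq v)) with hW
  have hWc : Continuous W := Real.continuous_exp.comp (continuous_const.mul continuous_nsq).neg
  have hUc : Continuous U := continuous_const.add (continuous_const.mul continuous_nsq)
  -- W * (B + U) is integrable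
  have hWU : ∀ B : ℝ, Integrable fun v => W v * (B + U v) := by
    intro B
    have h1 := (gauss_int k (c := 1 / 4) (by norm_num)).const_mul (|B| + A + 8 * m)
    refine h1.mono' (hWc.mul (continuous_const.add hUc)).aestronglyMeasurable
      (Filter.Eventually.of_forall fun v => ?_)
    have hn := nsq_nn0 v
    have e1 : W v = Real.exp (-(1 / 4 * nsq v)) * Real.exp (-(1 / 4 * nsq v)) := by
      change Real.exp (-(1 / 2 * nsq v)) = _
      rw [← Real.exp_add]
      congr 1
      ring
    have e2 : nsq v * Real.exp (-(1 / 4 * nsq v)) ≤ 4 := by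
      have h5 := Real.add_one_le_exp (1 / 4 * nsq v)
      have h6 : Real.exp (1 / 4 * nsq v) * Real.exp (-(1 / 4 * nsq v)) = 1 := by
        rw [← Real.exp_add]; simp
      have h7 := Real.exp_pos (-(1 / 4 * nsq v))
      nlinarith
    have e3 : Real.exp (-(1 / 4 * nsq v)) ≤ 1 := by
      rw [Real.exp_le_one_iff]; nlinarith
    have h7 := Real.exp_pos (-(1 / 4 * nsq v))
    rw [Real.norm_eq_abs, abs_mul, e1, abs_of_pos (by positivity)]
    have e4 : |B + U v| ≤ |B| + A + 2 * m * nsq v := by
      refine (abs_add_le _ _).trans ?_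
      rw [abs_of_nonneg (hU0 v)]
      rw [hU]
      simp only
      linarith
    have hB := abs_nonneg B
    have hm : (0 : ℝ) ≤ m := Nat.cast_nonneg m
    have e5 : Real.exp (-(1 / 4 * nsq v)) * |B + U v| ≤ |B| + A + 8 * m := by
      calc Real.exp (-(1 / 4 * nsq v)) * |B + U v| ≤
            Real.exp (-(1 / 4 * nsq v)) * (|B| + A + 2 * m * nsq v) :=
            mul_le_mul_of_nonneg_left e4 h7.le
        _ = Real.exp (-(1 / 4 * nsq v)) * (|B| + A) +
            2 * m * (nsq v * Real.exp (-(1 / 4 * nsq v))) := by ring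
        _ ≤ 1 * (|B| + A) + 2 * m * 4 :=
            add_le_add (mul_le_mul_of_nonneg_right e3 (by positivity))
              (mul_le_mul_of_nonneg_left e2 (by positivity))
        _ = |B| + A + 8 * m := by ring
    calc Real.exp (-(1 / 4 * nsq v)) * Real.exp (-(1 / 4 * nsq v)) * |B + U v| =
          Real.exp (-(1 / 4 * nsq v)) * |B + U v| * Real.exp (-(1 / 4 * nsq v)) := by ring
      _ ≤ (|B| + A + 8 * m) * Real.exp (-(1 / 4 * nsq v)) :=
          mul_le_mul_of_nonneg_right e5 h7.le
  set L : ℝ := Real.log ‖MvPolynomial.eval a R‖ with hL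
  -- the function
  set g : (Fin k → ℂ) → ℝ := fun v => U v - Real.log ‖MvPolynomial.eval (a + v) R‖ with hg
  have hgm : Measurable g := by
    apply Measurable.sub hUc.measurable
    exact Real.measurable_log.comp (hcont.comp (continuous_const.add continuous_id)).norm.measurable
  have hg0 : ∀ v, 0 ≤ g v := fun v => sub_nonneg.2 (hlogU v)
  have hW0 : ∀ v, 0 ≤ W v := fun v => (Real.exp_pos _).le
  set J : ℝ≥0∞ := ∫⁻ v, ENNReal.ofReal (W v * g v) with hJ
  have hWrot : ∀ (θ : ℝ) (v : Fin k → ℂ), W (circleMap 0 1 θ • v) = W v := by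
    intro θ v
    rw [hW]
    simp only
    rw [nsq_rot _ (by rw [norm_circleMap_zero, abs_one])]
  have hUrot : ∀ (θ : ℝ) (v : Fin k → ℂ), U (circleMap 0 1 θ • v) = U v := by
    intro θ v
    rw [hU]
    simp only
    rw [nsq_rot _ (by rw [norm_circleMap_zero, abs_one])]
  have hrot : ∀ θ : ℝ, ∫⁻ v, ENNReal.ofReal (W v * g (circleMap 0 1 θ • v)) = J := by
    intro θ
    have hmm : Measurable fun v => ENNReal.ofReal (W v * g v) :=
      ENNReal.measurable_ofReal.comp (hWc.measurable.mul hgm)
    have h1 := (mp_rot (N := k) (circleMap 0 1 θ) (by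
      rw [norm_circleMap_zero, abs_one])).lintegral_comp hmm
    rw [hJ, ← h1]
    refine lintegral_congr fun v => ?_
    rw [hWrot]
  have hmeas : Measurable (fun p : ℝ × (Fin k → ℂ) =>
      ENNReal.ofReal (W p.2 * g (circleMap 0 1 p.1 • p.2))) := by
    apply ENNReal.measurable_ofReal.comp
    apply (hWc.measurable.comp measurable_snd).mul
    apply hgm.comp
    exact (((continuous_circleMap 0 1).comp continuous_fst).smul continuous_snd).measurable
  have hswap : ∫⁻ θ in Set.Ioc 0 (2 * Real.pi), ∫⁻ v,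
      ENNReal.ofReal (W v * g (circleMap 0 1 θ • v)) =
      ∫⁻ v, ∫⁻ θ in Set.Ioc 0 (2 * Real.pi), ENNReal.ofReal (W v * g (circleMap 0 1 θ • v)) :=
    lintegral_lintegral_swap hmeas.aemeasurable
  have hin : ∀ v, ∫⁻ θ in Set.Ioc 0 (2 * Real.pi),
      ENNReal.ofReal (W v * g (circleMap 0 1 θ • v)) ≤
      ENNReal.ofReal (2 * Real.pi * (W v * (-L + U v))) := by
    intro v
    have hI1 : IntervalIntegrable (fun θ : ℝ =>
        Real.log ‖MvPolynomial.eval (a + circleMap 0 1 θ • v) R‖) volume 0 (2 * Real.pi) := by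
      have := Polynomial.intervalIntegrable_mahlerMeasure (p := lp R a v)
      simpa only [eval_lp] using this
    have hgr2 : ∀ θ : ℝ, g (circleMap 0 1 θ • v) =
        U v - Real.log ‖MvPolynomial.eval (a + circleMap 0 1 θ • v) R‖ := by
      intro θ
      rw [hg]
      simp only
      rw [hUrot]
    have hI2 : IntervalIntegrable (fun θ : ℝ => g (circleMap 0 1 θ • v)) volume 0
        (2 * Real.pi) := by
      simp only [hgr2]
      exact intervalIntegrable_const.sub hI1
    have hI2' : IntervalIntegrable (fun θ : ℝ => W v * g (circleMap 0 1 θ • v)) volume 0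
        (2 * Real.pi) := hI2.const_mul _
    have hI3 : Integrable (fun θ : ℝ => W v * g (circleMap 0 1 θ • v))
        (volume.restrict (Set.Ioc 0 (2 * Real.pi))) :=
      (intervalIntegrable_iff_integrableOn_Ioc_of_le Real.two_pi_pos.le).1 hI2'
    rw [← ofReal_integral_eq_lintegral_ofReal hI3 (Filter.Eventually.of_forall fun θ =>
      mul_nonneg (hW0 v) (hg0 _))]
    apply ENNReal.ofReal_le_ofReal
    rw [← intervalIntegral.integral_of_le Real.two_pi_pos.le]
    rw [intervalIntegral.integral_const_mul]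
    have h2 : ∫ θ in (0 : ℝ)..(2 * Real.pi), g (circleMap 0 1 θ • v) =
        2 * Real.pi * U v - ∫ θ in (0 : ℝ)..(2 * Real.pi),
          Real.log ‖MvPolynomial.eval (a + circleMap 0 1 θ • v) R‖ := by
      simp only [hgr2]
      rw [intervalIntegral.integral_sub intervalIntegrable_const hI1,
        intervalIntegral.integral_const]
      simp
    rw [h2]
    have h3 := jens R a v ha
    have h4 : 2 * Real.pi * U v - ∫ θ in (0 : ℝ)..(2 * Real.pi),
        Real.log ‖MvPolynomial.eval (a + circleMap 0 1 θ • v) R‖ ≤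
        2 * Real.pi * (-L + U v) := by linarith
    calc W v * (2 * Real.pi * U v - ∫ θ in (0 : ℝ)..(2 * Real.pi),
          Real.log ‖MvPolynomial.eval (a + circleMap 0 1 θ • v) R‖) ≤
          W v * (2 * Real.pi * (-L + U v)) := mul_le_mul_of_nonneg_left h4 (hW0 v)
      _ = 2 * Real.pi * (W v * (-L + U v)) := by ring
  have hJ2 : ENNReal.ofReal (2 * Real.pi) * J < ∞ := by
    have h1 : ∫⁻ θ in Set.Ioc 0 (2 * Real.pi), ∫⁻ v,
        ENNReal.ofReal (W v * g (circleMap 0 1 θ • v)) = ENNReal.ofReal (2 * Real.pi) * J := by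
      simp only [hrot]
      rw [lintegral_const, Measure.restrict_apply MeasurableSet.univ, Set.univ_inter,
        Real.volume_Ioc, sub_zero, mul_comm]
    rw [← h1, hswap]
    refine (lintegral_mono hin).trans_lt ?_
    exact ((hWU (-L)).const_mul (2 * Real.pi)).lintegral_lt_top
  have hJ3 : J < ∞ := by
    by_contra h
    rw [not_lt, top_le_iff] at h
    rw [h, ENNReal.mul_top] at hJ2
    · exact lt_irrefl _ hJ2
    · rw [Ne, ENNReal.ofReal_eq_zero, not_le]
      exact Real.two_pi_pos
  have hgi : Integrable fun v => W v * g v := by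
    refine ⟨(hWc.measurable.mul hgm).aestronglyMeasurable, ?_⟩
    rw [hasFiniteIntegral_iff_ofReal]
    · exact hJ3
    · exact Filter.Eventually.of_forall fun v => mul_nonneg (hW0 v) (hg0 v)
  have hfin : Integrable fun v : Fin k → ℂ => Real.exp (-nsq (a + v)) *
      Real.log ‖MvPolynomial.eval (a + v) R‖ := by
    have h1 := (hgi.add (hWU 0)).const_mul (Real.exp (nsq a))
    refine h1.mono' ?_ (Filter.Eventually.of_forall fun v => ?_)
    · apply Measurable.aestronglyMeasurable
      apply Measurable.mul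
      · exact (Real.continuous_exp.comp
          (continuous_nsq.comp (continuous_const.add continuous_id)).neg).measurable
      · exact Real.measurable_log.comp
          (hcont.comp (continuous_const.add continuous_id)).norm.measurable
    · have h2 : Real.exp (-nsq (a + v)) ≤ Real.exp (nsq a) * W v := by
        rw [hW, ← Real.exp_add]
        apply Real.exp_le_exp.2
        have h3 := nsq_add_le (-a) (a + v)
        have h4 : nsq (-a) = nsq a := by
          unfold nsq
          exact Finset.sum_congr rfl fun i _ => by rw [Pi.neg_apply, norm_neg]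
        rw [neg_add_cancel_left, h4] at h3
        linarith
      have h5 : |Real.log ‖MvPolynomial.eval (a + v) R‖| ≤ g v + U v := by
        have h6 : Real.log ‖MvPolynomial.eval (a + v) R‖ = U v - g v := by
          rw [hg]; ring
        have h7 := hg0 v
        have h8 := hU0 v
        rw [h6, abs_le]
        constructor <;> linarith
      rw [Real.norm_eq_abs, abs_mul, abs_of_pos (Real.exp_pos _)]
      have h9 := hg0 v
      have h10 := hU0 v
      calc Real.exp (-nsq (a + v)) * |Real.log ‖MvPolynomial.eval (a + v) R‖| ≤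
            (Real.exp (nsq a) * W v) * (g v + U v) :=
            mul_le_mul h2 h5 (abs_nonneg _) (mul_nonneg (Real.exp_pos _).le (hW0 v))
        _ = Real.exp (nsq a) * (W v * g v + W v * (0 + U v)) := by ring
  have := hfin.comp_add_left (-a)
  refine this.congr (Filter.Eventually.of_forall fun v => ?_)
  simp only
  rw [add_neg_cancel_left]

end Pool.Agent.H95.EHD
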