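import Pool.Agent.H92.EHD.TR

/-!
Row RPD of ehd_modules: properties of the contraction.
-/

namespace Pool.Agent.H95.EHD

open scoped BigOperators ComplexConjugate ContDiff ComplexOrder
open MeasureTheory Pool.Agent.H92.EQ Pool.Agent.H92.EHD

section gen

variable {A : Type} [Fintype A] [DecidableEq A]

/-- the form at a difference of two multiples of basis vectors -/
theorem form_two (T : A → A → ℂ) (a b : A) (x y : ℂ) :
    ∑ I, ∑ J, (Pi.single a x + Pi.single b y : A → ℂ) I *
      conj ((Pi.single a x + Pi.single b y : A → ℂ) J) * T I J =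
    x * conj x * T a a + x * conj y * T a b + y * conj x * T b a + y * conj y * T b b := by
  have h1 : ∀ (u : A → ℂ) (c : A) (w : ℂ) (g : A → ℂ),
      ∑ J, conj ((Pi.single c w : A → ℂ) J) * g J = conj w * g c := by
    intro u c w g
    rw [Finset.sum_eq_single c]
    · rw [Pi.single_eq_same]
    · intro b _ hb
      rw [Pi.single_eq_of_ne hb, map_zero, zero_mul]
    · intro h; exact absurd (Finset.mem_univ c) h
  have h2 : ∀ (c : A) (w : ℂ) (g : A → ℂ),
      ∑ J, (Pi.single c w : A → ℂ) J * g J = w * g c := by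
    intro c w g
    rw [Finset.sum_eq_single c]
    · rw [Pi.single_eq_same]
    · intro b _ hb
      rw [Pi.single_eq_of_ne hb, zero_mul]
    · intro h; exact absurd (Finset.mem_univ c) h
  have h3 : ∀ I, ∑ J, (Pi.single a x + Pi.single b y : A → ℂ) I *
      conj ((Pi.single a x + Pi.single b y : A → ℂ) J) * T I J =
      (Pi.single a x : A → ℂ) I * (conj x * T I a + conj y * T I b) +
      (Pi.single b y : A → ℂ) I * (conj x * T I a + conj y * T I b) := by
    intro I
    rw [← h1 0 a x (fun J => T I J), ← h1 0 b y (fun J => T I J), ← Finset.sum_add_distrib,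
      ← add_mul, Finset.mul_sum]
    refine Finset.sum_congr rfl fun J _ => ?_
    rw [Pi.add_apply, Pi.add_apply, map_add]
    ring
  rw [Finset.sum_congr rfl fun I _ => h3 I, Finset.sum_add_distrib, h2, h2]
  ring

theorem psd_diag (T : A → A → ℂ) (h : ∀ c : A → ℂ, 0 ≤ ∑ I, ∑ J, c I * conj (c J) * T I J)
    (a : A) : 0 ≤ T a a := by
  have h1 := h (Pi.single a 1 + Pi.single a 0)
  rw [form_two] at h1
  simpa using h1

theorem psd_herm (T : A → A → ℂ) (h : ∀ c : A → ℂ, 0 ≤ ∑ I, ∑ J, c I * conj (c J) * T I J)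
    (a b : A) : T b a = conj (T a b) := by
  have ha := (Complex.le_def.1 (psd_diag T h a)).2
  have hb := (Complex.le_def.1 (psd_diag T h b)).2
  have h1 := h (Pi.single a 1 + Pi.single b 1)
  have h2 := h (Pi.single a 1 + Pi.single b Complex.I)
  rw [form_two] at h1 h2
  have e1 := (Complex.le_def.1 h1).2
  have e2 := (Complex.le_def.1 h2).2
  simp at ha hb e1 e2
  apply Complex.ext
  · simp
    linarith
  · simp
    linarith

/-- a psd form is at most the trace -/
theorem psd_trace (T : A → A → ℂ) (h : ∀ c : A → ℂ, 0 ≤ ∑ I, ∑ J, c I * conj (c J) * T I J)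
    (v : A → ℂ) : (∑ K, ∑ L, v K * conj (v L) * T K L).re ≤
      (∑ K, ‖v K‖ ^ 2) * ∑ K, (T K K).re := by
  have h1 : ∀ K L, 0 ≤ ‖v L‖ ^ 2 * (T K K).re - (v K * conj (v L) * T K L).re -
      (v L * conj (v K) * T L K).re + ‖v K‖ ^ 2 * (T L L).re := by
    intro K L
    have h2 := h (Pi.single K (conj (v L)) + Pi.single L (-conj (v K)))
    rw [form_two] at h2
    have h3 := (Complex.le_def.1 h2).1
    have e1 : conj (v L) * conj (conj (v L)) * T K K = ((‖v L‖ ^ 2 : ℝ) : ℂ) * T K K := by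
      rw [Complex.conj_conj, ← Complex.normSq_eq_norm_sq, Complex.normSq_eq_conj_mul_self]
    have e2 : -conj (v K) * conj (-conj (v K)) * T L L = ((‖v K‖ ^ 2 : ℝ) : ℂ) * T L L := by
      rw [map_neg, Complex.conj_conj, neg_mul_neg, ← Complex.normSq_eq_norm_sq,
        Complex.normSq_eq_conj_mul_self]
    have e3 : conj (v L) * conj (-conj (v K)) * T K L = -(v K * conj (v L) * T K L) := by
      rw [map_neg, Complex.conj_conj]; ring
    have e4 : -conj (v K) * conj (conj (v L)) * T L K = -(v L * conj (v K) * T L K) := by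
      rw [Complex.conj_conj]; ring
    rw [e1, e2, e3, e4] at h3
    simp only [Complex.add_re, Complex.neg_re, Complex.re_ofReal_mul, Complex.zero_re] at h3
    linarith
  have h2 : 0 ≤ ∑ K, ∑ L, (‖v L‖ ^ 2 * (T K K).re - (v K * conj (v L) * T K L).re -
      (v L * conj (v K) * T L K).re + ‖v K‖ ^ 2 * (T L L).re) :=
    Finset.sum_nonneg fun K _ => Finset.sum_nonneg fun L _ => h1 K L
  simp only [Finset.sum_add_distrib, Finset.sum_sub_distrib] at h2
  have e1 : ∑ K, ∑ L, ‖v L‖ ^ 2 * (T K K).re = (∑ K, ‖v K‖ ^ 2) * ∑ K, (T K K).re := by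
    rw [Finset.sum_mul_sum, Finset.sum_comm]
  have e2 : ∑ K, ∑ L, ‖v K‖ ^ 2 * (T L L).re = (∑ K, ‖v K‖ ^ 2) * ∑ K, (T K K).re := by
    rw [Finset.sum_mul_sum]
  have e3 : ∑ K, ∑ L, (v L * conj (v K) * T L K).re =
      ∑ K, ∑ L, (v K * conj (v L) * T K L).re := Finset.sum_comm
  have e4 : (∑ K, ∑ L, v K * conj (v L) * T K L).re =
      ∑ K, ∑ L, (v K * conj (v L) * T K L).re := by
    rw [Complex.re_sum]
    exact Finset.sum_congr rfl fun K _ => Complex.re_sum _ _
  rw [e1, e2, e3] at h2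
  rw [e4]
  linarith

theorem sum4_comm {B C D E : Type} [Fintype B] [Fintype C] [Fintype D] [Fintype E]
    (f : B → C → D → E → ℂ) :
    ∑ I, ∑ J, ∑ K, ∑ L, f I J K L = ∑ K, ∑ L, ∑ I, ∑ J, f I J K L := by
  calc ∑ I, ∑ J, ∑ K, ∑ L, f I J K L = ∑ I, ∑ K, ∑ J, ∑ L, f I J K L :=
        Finset.sum_congr rfl fun I _ => Finset.sum_comm
    _ = ∑ K, ∑ I, ∑ J, ∑ L, f I J K L := Finset.sum_comm
    _ = ∑ K, ∑ I, ∑ L, ∑ J, f I J K L :=
        Finset.sum_congr rfl fun K _ => Finset.sum_congr rfl fun I _ => Finset.sum_comm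
    _ = ∑ K, ∑ L, ∑ I, ∑ J, f I J K L := Finset.sum_congr rfl fun K _ => Finset.sum_comm

end gen

section ten

variable {ι : Type} [Fintype ι] [DecidableEq ι] {s : ℕ}

/-- the pull-back of a tensor by a matrix -/
noncomputable def pb (M : ι → ι → ℂ) (T : (Fin s → ι) → (Fin s → ι) → ℂ) :
    (Fin s → ι) → (Fin s → ι) → ℂ := fun I J =>
  ∑ K : Fin s → ι, ∑ L : Fin s → ι, T K L * (∏ l, M (K l) (I l)) * ∏ l, conj (M (L l) (J l))

omit [DecidableEq ι] in
theorem pb_psd (M : ι → ι → ℂ) (T : (Fin s → ι) → (Fin s → ι) → ℂ) (hT : Psd T) :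
    Psd (pb M T) := by
  intro c
  have h1 := hT fun K => ∑ I, c I * ∏ l, M (K l) (I l)
  have e : ∑ I, ∑ J, c I * conj (c J) * pb M T I J =
      ∑ K, ∑ L, (∑ I, c I * ∏ l, M (K l) (I l)) *
        conj (∑ I, c I * ∏ l, M (L l) (I l)) * T K L := by
    have e1 : ∀ I J, c I * conj (c J) * pb M T I J = ∑ K, ∑ L, (c I * conj (c J) *
        (T K L * (∏ l, M (K l) (I l)) * ∏ l, conj (M (L l) (J l)))) := by
      intro I J
      unfold pb
      rw [Finset.mul_sum]
      exact Finset.sum_congr rfl fun K _ => Finset.mul_sum _ _ _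
    simp only [e1]
    rw [sum4_comm]
    refine Finset.sum_congr rfl fun K _ => Finset.sum_congr rfl fun L _ => ?_
    rw [map_sum, Finset.sum_mul_sum, Finset.sum_mul]
    refine Finset.sum_congr rfl fun I _ => ?_
    rw [Finset.sum_mul]
    refine Finset.sum_congr rfl fun J _ => ?_
    rw [map_mul, map_prod]
    ring
  rw [e]
  exact h1

omit [DecidableEq ι] in
theorem pb_altL (M : ι → ι → ℂ) (T : (Fin s → ι) → (Fin s → ι) → ℂ)
    (hT : ∀ (π : Equiv.Perm (Fin s)) I J, T (I ∘ π) J = ((Equiv.Perm.sign π : ℤ) : ℂ) * T I J)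
    (π : Equiv.Perm (Fin s)) (I J : Fin s → ι) :
    pb M T (I ∘ π) J = ((Equiv.Perm.sign π : ℤ) : ℂ) * pb M T I J := by
  unfold pb
  rw [Finset.mul_sum]
  rw [← Equiv.sum_comp (Equiv.arrowCongr π.symm (Equiv.refl ι))]
  refine Finset.sum_congr rfl fun K _ => ?_
  rw [Finset.mul_sum]
  refine Finset.sum_congr rfl fun L _ => ?_
  have e1 : (Equiv.arrowCongr π.symm (Equiv.refl ι)) K = K ∘ π := rfl
  rw [e1, hT]
  have e2 : ∏ l, M ((K ∘ π) l) ((I ∘ π) l) = ∏ l, M (K l) (I l) :=
    Equiv.prod_comp π (fun l => M (K l) (I l))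
  rw [e2]
  ring

theorem sum_update (G : (Fin s → ι) → ℂ) (j : Fin s) :
    ∑ K : Fin s → ι, ∑ a : ι, G (Function.update K j a) =
      (Fintype.card ι : ℂ) * ∑ K, G K := by
  have h1 : ∑ p : (Fin s → ι) × ι, G (Function.update p.1 j p.2) =
      ∑ p : (Fin s → ι) × ι, G p.1 := by
    refine Finset.sum_nbij' (fun p => (Function.update p.1 j p.2, p.1 j))
      (fun p => (Function.update p.1 j p.2, p.1 j)) (fun _ _ => Finset.mem_univ _)
      (fun _ _ => Finset.mem_univ _) ?_ ?_ ?_
    · intro p _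
      simp
    · intro p _
      simp
    · intro p _
      rfl
  rw [Fintype.sum_prod_type, Fintype.sum_prod_type] at h1
  rw [h1]
  simp only [Finset.sum_const, Finset.card_univ, nsmul_eq_mul]
  rw [← Finset.mul_sum]

theorem pb_kilL [Nonempty ι] (M : ι → ι → ℂ) (T : (Fin s → ι) → (Fin s → ι) → ℂ) (y : ι → ℂ)
    (hT : KilL (fun i => ∑ a, M i a * y a) T) : KilL y (pb M T) := by
  intro I J j
  set Y : ι → ℂ := fun i => ∑ a, M i a * y a with hY
  set G : (Fin s → ι) → ℂ := fun K => ∑ L : Fin s → ι, T K L * (Y (K j) *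
    ∏ l ∈ Finset.univ.erase j, M (K l) (I l)) * ∏ l, conj (M (L l) (J l)) with hG
  have e1 : ∑ a, y a * pb M T (Function.update I j a) J = ∑ K, G K := by
    unfold pb
    simp only [Finset.mul_sum]
    rw [Finset.sum_comm]
    refine Finset.sum_congr rfl fun K _ => ?_
    rw [Finset.sum_comm, hG]
    refine Finset.sum_congr rfl fun L _ => ?_
    have e2 : ∀ a, ∏ l, M (K l) (Function.update I j a l) =
        M (K j) a * ∏ l ∈ Finset.univ.erase j, M (K l) (I l) := by
      intro a
      rw [← Finset.mul_prod_erase Finset.univ _ (Finset.mem_univ j), Function.update_self]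
      congr 1
      refine Finset.prod_congr rfl fun l hl => ?_
      rw [Function.update_of_ne (Finset.ne_of_mem_erase hl)]
    simp only [e2, hY]
    rw [Finset.sum_mul, Finset.mul_sum, Finset.sum_mul]
    refine Finset.sum_congr rfl fun a _ => ?_
    ring
  have h2 := sum_update G j
  have h3 : ∀ K : Fin s → ι, ∑ a : ι, G (Function.update K j a) = 0 := by
    intro K
    simp only [hG]
    rw [Finset.sum_comm]
    refine Finset.sum_eq_zero fun L _ => ?_
    have e3 : ∀ a, T (Function.update K j a) L * (Y (Function.update K j a j) *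
        ∏ l ∈ Finset.univ.erase j, M (Function.update K j a l) (I l)) *
          ∏ l, conj (M (L l) (J l)) =
        (Y a * T (Function.update K j a) L) * ((∏ l ∈ Finset.univ.erase j, M (K l) (I l)) *
          ∏ l, conj (M (L l) (J l))) := by
      intro a
      rw [Function.update_self]
      have : ∏ l ∈ Finset.univ.erase j, M (Function.update K j a l) (I l) =
          ∏ l ∈ Finset.univ.erase j, M (K l) (I l) :=
        Finset.prod_congr rfl fun l hl => by
          rw [Function.update_of_ne (Finset.ne_of_mem_erase hl)]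
      rw [this]
      ring
    simp only [e3]
    rw [← Finset.sum_mul, hT K L j, zero_mul]
  rw [Finset.sum_congr rfl fun K _ => h3 K, Finset.sum_const_zero] at h2
  rw [e1]
  exact (mul_eq_zero.1 h2.symm).resolve_left (by
    exact_mod_cast (Fintype.card_pos (α := ι)).ne')

theorem pb_trF (M : ι → ι → ℂ) (T : (Fin s → ι) → (Fin s → ι) → ℂ) (hT : Psd T) :
    trF (pb M T) ≤ trF T * (∑ i, nsq (M i)) ^ s := by
  have h1 : ∀ I : Fin s → ι, (pb M T I I).re ≤
      (∑ K : Fin s → ι, ‖∏ l, M (K l) (I l)‖ ^ 2) * trF T := by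
    intro I
    have h2 := psd_trace T hT fun K => ∏ l, M (K l) (I l)
    refine le_trans (le_of_eq ?_) h2
    congr 1
    unfold pb
    refine Finset.sum_congr rfl fun K _ => Finset.sum_congr rfl fun L _ => ?_
    rw [map_prod]
    ring
  have h3 : ∑ I : Fin s → ι, ∑ K : Fin s → ι, ‖∏ l, M (K l) (I l)‖ ^ 2 =
      (∑ i, nsq (M i)) ^ s := by
    rw [Finset.sum_comm]
    have e1 : ∀ K : Fin s → ι, ∑ I : Fin s → ι, ‖∏ l, M (K l) (I l)‖ ^ 2 =
        ∏ l, nsq (M (K l)) := by
      intro K
      unfold nsq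
      rw [Finset.prod_univ_sum, Fintype.piFinset_univ]
      refine Finset.sum_congr rfl fun I _ => ?_
      rw [norm_prod, Finset.prod_pow]
    simp only [e1]
    have e2 := Finset.prod_univ_sum (fun _ : Fin s => (Finset.univ : Finset ι))
      (fun _ i => nsq (M i))
    rw [Fintype.piFinset_univ, Finset.prod_const, Finset.card_univ, Fintype.card_fin] at e2
    exact e2.symm
  calc trF (pb M T) = ∑ I, (pb M T I I).re := rfl
    _ ≤ ∑ I : Fin s → ι, (∑ K : Fin s → ι, ‖∏ l, M (K l) (I l)‖ ^ 2) * trF T :=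
        Finset.sum_le_sum fun I _ => h1 I
    _ = trF T * (∑ i, nsq (M i)) ^ s := by rw [← Finset.sum_mul, h3, mul_comm]

end ten

theorem sum_cons {n s : ℕ} {R : Type} [AddCommMonoid R] (f : (Fin (s + 1) → Fin n) → R) :
    ∑ M, f M = ∑ a : Fin n, ∑ K : Fin s → Fin n,
      f (Fin.cons (α := fun _ => Fin n) a K) := by
  rw [← (Fin.consEquiv (fun _ : Fin (s + 1) => Fin n)).sum_comp f, Fintype.sum_prod_type]
  rfl

theorem pf_RPD : T_RPD := by
  intro k s S X j y hS hX hy
  set Y : Fin (k + 1) → ℂ := (Matrix.of X).mulVec y with hY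
  have hY0 : Y ≠ 0 := by
    intro h
    apply hy
    have h1 : (Matrix.of X).adjugate.mulVec ((Matrix.of X).mulVec y) =
        (Matrix.of X).det • y := by
      rw [Matrix.mulVec_mulVec, Matrix.adjugate_mul, Matrix.smul_mulVec, Matrix.one_mulVec]
    rw [← hY, h, Matrix.mulVec_zero] at h1
    exact (smul_eq_zero.1 h1.symm).resolve_left hX
  have hYm : Y ∈ ({0}ᶜ : Set (Fin (k + 1) → ℂ)) := hY0
  set T : (Fin s → Fin (k + 1)) → (Fin s → Fin (k + 1)) → ℂ := fun K L =>
    S Y (Fin.cons (α := fun _ => Fin (k + 1)) 0 K)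
      (Fin.cons (α := fun _ => Fin (k + 1)) 0 L) with hT
  have hSpsd : ∀ c : (Fin (s + 1) → Fin (k + 1)) → ℂ,
      0 ≤ ∑ I, ∑ J, c I * conj (c J) * S Y I J := hS.cp.psd Y hYm
  have hSaltL := hS.cp.altL Y hYm
  have hSaltR := hS.cp.altR Y hYm
  have hTpsd : Psd T := by
    intro c
    have h1 := hSpsd fun M => if M 0 = 0 then c (Fin.tail M) else 0
    rw [sum_cons] at h1
    rw [Finset.sum_eq_single 0] at h1
    · refine le_of_le_of_eq h1 ?_
      refine Finset.sum_congr rfl fun K _ => ?_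
      rw [sum_cons, Finset.sum_eq_single 0]
      · refine Finset.sum_congr rfl fun L _ => ?_
        simp [hT, Fin.tail_cons]
      · intro b _ hb
        refine Finset.sum_eq_zero fun L _ => ?_
        simp [hb]
      · intro h; exact absurd (Finset.mem_univ _) h
    · intro b _ hb
      refine Finset.sum_eq_zero fun K _ => Finset.sum_eq_zero fun J _ => ?_
      simp [hb]
    · intro h; exact absurd (Finset.mem_univ _) h
  have hcomp : ∀ (π : Equiv.Perm (Fin s)) (K : Fin s → Fin (k + 1)),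
      (Fin.cons (α := fun _ => Fin (k + 1)) 0 (K ∘ π) : Fin (s + 1) → Fin (k + 1)) =
      (Fin.cons (α := fun _ => Fin (k + 1)) 0 K : Fin (s + 1) → Fin (k + 1)) ∘
        (Equiv.Perm.decomposeFin.symm (0, π)) := by
    intro π K
    funext l
    refine Fin.cases ?_ (fun l => ?_) l
    · simp
    · simp
  have hTaltL : ∀ (π : Equiv.Perm (Fin s)) I J,
      T (I ∘ π) J = ((Equiv.Perm.sign π : ℤ) : ℂ) * T I J := by
    intro π I J
    simp only [hT]
    rw [hcomp, hSaltL, Equiv.Perm.decomposeFin.symm_sign]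
    simp
  have hz : ∀ (K L : Fin s → Fin (k + 1)) (l : Fin s), K l = 0 → T K L = 0 := by
    intro K L l hl
    have h1 := hSaltL (Equiv.swap 0 l.succ) (Fin.cons (α := fun _ => Fin (k + 1)) 0 K)
      (Fin.cons (α := fun _ => Fin (k + 1)) 0 L)
    have h2 : (Fin.cons (α := fun _ => Fin (k + 1)) 0 K : Fin (s + 1) → Fin (k + 1)) ∘
        (Equiv.swap 0 l.succ) = Fin.cons (α := fun _ => Fin (k + 1)) 0 K := by
      funext i
      rw [Function.comp_apply]
      by_cases hi0 : i = 0
      · subst hi0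
        rw [Equiv.swap_apply_left, Fin.cons_succ, hl, Fin.cons_zero]
      · by_cases hil : i = l.succ
        · subst hil
          rw [Equiv.swap_apply_right, Fin.cons_succ, hl, Fin.cons_zero]
        · rw [Equiv.swap_apply_of_ne_of_ne hi0 hil]
    rw [h2, Equiv.Perm.sign_swap (Fin.succ_ne_zero l).symm] at h1
    have h3 : T K L = -T K L := by
      simp only [hT]
      simpa using h1
    have h4 : (2 : ℂ) * T K L = 0 := by linear_combination h3
    exact (mul_eq_zero.1 h4).resolve_left two_ne_zero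
  have hherm : ∀ K L, T L K = conj (T K L) := psd_herm T hTpsd
  have hzR : ∀ (K L : Fin s → Fin (k + 1)) (l : Fin s), L l = 0 → T K L = 0 := by
    intro K L l hl
    rw [hherm L K, hz L K l hl, map_zero]
  have hTkil : KilL (fun i => ∑ a, X i a * y a) T := by
    intro I J i
    have h1 := hS.basicL Y hY0 (Fin.cons (α := fun _ => Fin (k + 1)) 0 I)
      (Fin.cons (α := fun _ => Fin (k + 1)) 0 J) i.succ
    rw [← h1]
    refine Finset.sum_congr rfl fun a _ => ?_
    simp only [hT]
    rw [Fin.cons_update]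
    rfl
  have hW : ∀ I J, Wj S X j y I J = ((‖y j‖ ^ 2 : ℝ) : ℂ) * pb X T I J := fun I J => rfl
  have hc0 : (0 : ℂ) ≤ ((‖y j‖ ^ 2 : ℝ) : ℂ) := by
    exact_mod_cast sq_nonneg ‖y j‖
  have hWpsd : Psd (Wj S X j y) := by
    intro c
    have h1 := pb_psd X T hTpsd c
    have e : ∑ I, ∑ J, c I * conj (c J) * Wj S X j y I J =
        ((‖y j‖ ^ 2 : ℝ) : ℂ) * ∑ I, ∑ J, c I * conj (c J) * pb X T I J := by
      rw [Finset.mul_sum]
      refine Finset.sum_congr rfl fun I _ => ?_
      rw [Finset.mul_sum]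
      refine Finset.sum_congr rfl fun J _ => ?_
      rw [hW]
      ring
    rw [e]
    exact mul_nonneg hc0 h1
  have hWherm : ∀ I J, Wj S X j y J I = conj (Wj S X j y I J) := psd_herm _ hWpsd
  have hWaltL : ∀ (π : Equiv.Perm (Fin s)) I J,
      Wj S X j y (I ∘ π) J = ((Equiv.Perm.sign π : ℤ) : ℂ) * Wj S X j y I J := by
    intro π I J
    rw [hW, hW, pb_altL X T hTaltL]
    ring
  have hWkil : KilL y (Wj S X j y) := by
    intro I J i
    have h1 := pb_kilL X T y hTkil I J i
    have e : ∑ a, y a * Wj S X j y (Function.update I i a) J =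
        ((‖y j‖ ^ 2 : ℝ) : ℂ) * ∑ a, y a * pb X T (Function.update I i a) J := by
      rw [Finset.mul_sum]
      refine Finset.sum_congr rfl fun a _ => ?_
      rw [hW]
      ring
    rw [e, h1, mul_zero]
  have hStr0 : ∀ M, 0 ≤ (S Y M M).re := fun M =>
    (Complex.le_def.1 (psd_diag (S Y) hSpsd M)).1
  have htr0 : 0 ≤ trF (S Y) := Finset.sum_nonneg fun M _ => hStr0 M
  refine ⟨⟨hWpsd, hWaltL, ?_, hWkil, ?_⟩, htr0, ?_⟩
  · intro π I J
    rw [hWherm (J ∘ π) I, hWaltL, map_mul, ← hWherm J I]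
    simp
  · intro I J i
    have h1 := congrArg conj (hWkil J I i)
    rw [map_zero, map_sum] at h1
    rw [← h1]
    refine Finset.sum_congr rfl fun a _ => ?_
    rw [map_mul, ← hWherm]
  · -- the trace
    set X' : Fin (k + 1) → Fin (k + 1) → ℂ := Function.update X 0 0 with hX'
    have hpb : pb X T = pb X' T := by
      funext I J
      unfold pb
      refine Finset.sum_congr rfl fun K _ => Finset.sum_congr rfl fun L _ => ?_
      by_cases hK : ∃ l, K l = 0
      · obtain ⟨l, hl⟩ := hK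
        rw [hz K L l hl]
        simp
      · by_cases hL : ∃ l, L l = 0
        · obtain ⟨l, hl⟩ := hL
          rw [hzR K L l hl]
          simp
        · push Not at hK hL
          have e1 : ∀ l, X' (K l) = X (K l) := fun l => Function.update_of_ne (hK l) _ _
          have e2 : ∀ l, X' (L l) = X (L l) := fun l => Function.update_of_ne (hL l) _ _
          simp only [e1, e2]
    have hsum : ∑ i, nsq (X' i) = ∑ i : Fin k, nsq (X i.succ) := by
      rw [Fin.sum_univ_succ]
      have e1 : nsq (X' 0) = 0 := by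
        rw [hX', Function.update_self]
        simp [nsq]
      rw [e1, zero_add]
      refine Finset.sum_congr rfl fun i _ => ?_
      rw [hX', Function.update_of_ne (Fin.succ_ne_zero i)]
    have h1 := pb_trF X' T hTpsd
    rw [hsum, ← hpb] at h1
    have h2 : trF T ≤ trF (S Y) := by
      unfold trF
      rw [sum_cons]
      exact Finset.single_le_sum
        (f := fun a : Fin (k + 1) => ∑ K : Fin s → Fin (k + 1),
          (S Y (Fin.cons (α := fun _ => Fin (k + 1)) a K)
            (Fin.cons (α := fun _ => Fin (k + 1)) a K)).re)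
        (fun a _ => Finset.sum_nonneg fun K _ => hStr0 _) (Finset.mem_univ 0)
    have h3 : trF (Wj S X j y) = ‖y j‖ ^ 2 * trF (pb X T) := by
      unfold trF
      rw [Finset.mul_sum]
      refine Finset.sum_congr rfl fun I _ => ?_
      rw [hW, Complex.re_ofReal_mul]
    have h4 : 0 ≤ (∑ i : Fin k, nsq (X i.succ)) ^ s :=
      pow_nonneg (Finset.sum_nonneg fun i _ => Finset.sum_nonneg fun _ _ => sq_nonneg _) _
    rw [h3]
    calc ‖y j‖ ^ 2 * trF (pb X T) ≤
          ‖y j‖ ^ 2 * (trF T * (∑ i : Fin k, nsq (X i.succ)) ^ s) :=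
          mul_le_mul_of_nonneg_left h1 (sq_nonneg _)
      _ ≤ ‖y j‖ ^ 2 * (trF (S Y) * (∑ i : Fin k, nsq (X i.succ)) ^ s) :=
          mul_le_mul_of_nonneg_left (mul_le_mul_of_nonneg_right h2 h4) (sq_nonneg _)
      _ = ‖y j‖ ^ 2 * trF (S Y) * (∑ i : Fin k, nsq (X i.succ)) ^ s := by ring

end Pool.Agent.H95.EHD
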