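import Pool.Agent.H92.EHD.TK
import Pool.Agent.H95.EQ.TH

/-!
Row ETG of ehd_modules: one entry moves, the row `0` is `X_00 e_0`.
-/

namespace Pool.Agent.H95.EHD

open scoped BigOperators ComplexConjugate ContDiff ComplexOrder
open MeasureTheory Pool.Agent.H92.EQ Pool.Agent.H92.EHD Pool.Agent.H95.EQ

theorem cut_apply {k : ℕ} (m : ℕ) (X : Fin (k + 1) → Fin (k + 1) → ℂ) (a b : Fin (k + 1)) :
    cut m X a b = if a = 0 then (if (b : ℕ) < m then X 0 b else 0) else X a b := by
  unfold cut row0
  rw [Function.update_apply]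
  by_cases ha : a = 0
  · rw [if_pos ha, if_pos ha]
  · rw [if_neg ha, if_neg ha]

theorem cut_add {k : ℕ} (m : ℕ) (Y P : Fin (k + 1) → Fin (k + 1) → ℂ)
    (hP : ∀ b : Fin (k + 1), m ≤ (b : ℕ) → P 0 b = 0) (t : ℂ) :
    cut m (Y + t • P) = cut m Y + t • P := by
  funext a b
  simp only [Pi.add_apply, Pi.smul_apply, smul_eq_mul, cut_apply]
  by_cases ha : a = 0
  · subst ha
    rw [if_pos rfl, if_pos rfl]
    by_cases hb : (b : ℕ) < m
    · rw [if_pos hb, if_pos hb]
    · rw [if_neg hb, if_neg hb, hP b (not_lt.1 hb), mul_zero, add_zero]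
  · rw [if_neg ha, if_neg ha]

theorem continuous_cut {k : ℕ} (m : ℕ) :
    Continuous fun X : Fin (k + 1) → Fin (k + 1) → ℂ => cut m X := by
  refine continuous_pi fun a => continuous_pi fun b => ?_
  simp only [cut_apply]
  split_ifs
  · exact (continuous_apply b).comp (continuous_apply 0)
  · exact continuous_const
  · exact (continuous_apply b).comp (continuous_apply a)

theorem ae_det_cut {k : ℕ} (m : ℕ) (hm : 1 ≤ m) :
    ∀ᵐ X : Fin (k + 1) → Fin (k + 1) → ℂ, (Matrix.of (cut m X)).det ≠ 0 := by
  refine ae_of_lines (fun X => (Matrix.of (cut m X)).det)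
    (continuous_det_of.comp (continuous_cut m)) (fun a b => if a = b then 1 else 0) ?_
  intro Y
  filter_upwards [ae_det_line (Matrix.of (cut m Y))] with t ht
  rw [cut_add m Y _ (fun b hb => if_neg (fun h => by rw [← h] at hb; simp at hb; omega)) t]
  have e : Matrix.of (cut m Y + t • (fun a b : Fin (k + 1) => if a = b then (1 : ℂ) else 0)) =
      Matrix.scalar (Fin (k + 1)) t + Matrix.of (cut m Y) := by
    ext a b
    simp only [Matrix.of_apply, Pi.add_apply, Pi.smul_apply, smul_eq_mul, Matrix.add_apply,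
      Matrix.scalar_apply, Matrix.diagonal_apply]
    split_ifs <;> ring
  rw [e]
  exact ht

/-- a cofactor is generically nonzero along a line -/
theorem cof_line {N : ℕ} (i j : Fin N) (Y : Fin N → Fin N → ℂ) :
    ∀ᵐ t : ℂ, ((Matrix.of (Y + t • (fun a b : Fin N =>
      if b = Equiv.swap i j a then (1 : ℂ) else 0))).updateRow i
        (Pi.single j (1 : ℂ))).det ≠ 0 := by
  set σ := Equiv.swap i j with hσ
  set P : Fin N → Fin N → ℂ := fun a b => if b = σ a then 1 else 0 with hP
  set Z : Matrix (Fin N) (Fin N) ℂ :=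
    Matrix.of (fun a b => if a = i then 0 else Y a (σ b)) with hZ
  filter_upwards [ae_det_line Z] with t ht
  intro h0
  apply ht
  set W := (Matrix.of (Y + t • P)).updateRow i (Pi.single j (1 : ℂ)) with hW
  have h1 : (W.submatrix id σ).det = 0 := by
    rw [Matrix.det_permute', h0, mul_zero]
  have h2 : Matrix.scalar (Fin N) t + Z =
      (W.submatrix id σ).updateRow i (t • (W.submatrix id σ) i) := by
    ext a b
    by_cases ha : a = i
    · subst ha
      rw [Matrix.updateRow_self, Pi.smul_apply, Matrix.submatrix_apply, id, hW,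
        Matrix.updateRow_self, smul_eq_mul, Matrix.add_apply, Matrix.scalar_apply,
        Matrix.diagonal_apply, hZ, Matrix.of_apply, if_pos rfl, add_zero, Pi.single_apply]
      have : (σ b = j) ↔ (a = b) := by
        rw [hσ]
        constructor
        · intro h
          have := congrArg (Equiv.swap a j) h
          rw [Equiv.swap_apply_self, Equiv.swap_apply_right] at this
          exact this.symm
        · intro h
          subst h
          exact Equiv.swap_apply_left _ _
      by_cases hab : a = b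
      · rw [if_pos hab, if_pos (this.2 hab), mul_one]
      · rw [if_neg hab, if_neg (fun h => hab (this.1 h)), mul_zero]
    · rw [Matrix.updateRow_ne ha, Matrix.submatrix_apply, id, hW, Matrix.updateRow_ne ha,
        Matrix.of_apply, Pi.add_apply, Pi.add_apply, Pi.smul_apply, Pi.smul_apply,
        Matrix.add_apply, Matrix.scalar_apply, Matrix.diagonal_apply, hZ, Matrix.of_apply,
        if_neg ha, hP, smul_eq_mul]
      have : (σ b = σ a) ↔ (a = b) :=
        ⟨fun h => (σ.injective h).symm, fun h => by rw [h]⟩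
      by_cases hab : a = b
      · simp only [if_pos hab, if_pos (this.2 hab)]
        ring
      · simp only [if_neg hab, if_neg (fun h => hab (this.1 h))]
        ring
  rw [h2, Matrix.det_updateRow_smul, Matrix.updateRow_eq_self, h1, mul_zero]

theorem ae_cof_cut {k : ℕ} (i j : Fin (k + 1)) (hi : i ≠ 0) (hj : j ≠ 0) :
    ∀ᵐ X : Fin (k + 1) → Fin (k + 1) → ℂ,
      ((Matrix.of (cut 1 X)).updateRow i (Pi.single j (1 : ℂ))).det ≠ 0 := by
  refine ae_of_lines
    (fun X => ((Matrix.of (cut 1 X)).updateRow i (Pi.single j (1 : ℂ))).det)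
    ((continuous_det_updateRow i _).comp (continuous_cut 1))
    (fun a b => if b = Equiv.swap i j a then 1 else 0) ?_
  intro Y
  filter_upwards [cof_line i j (cut 1 Y)] with t ht
  have hs : Equiv.swap i j 0 = 0 := Equiv.swap_apply_of_ne_of_ne hi.symm hj.symm
  rw [cut_add 1 Y _ (fun b hb => if_neg (fun h => by
    rw [hs] at h; rw [h] at hb; simp at hb)) t]
  exact ht

/-- the bound when the determinant does not depend on the entry -/
theorem bound_const {N : ℕ} (X : Fin N → Fin N → ℂ) (i j : Fin N) (D : ℂ) (hD : D ≠ 0)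
    (hdet : ∀ t, (Matrix.of (rep X i j t)).det = D) :
    ∃ C : ℝ, ∀ t, t ≠ 0 → ∀ y : Fin N → ℂ, y ≠ 0 →
      |ell ((Matrix.of (rep X i j t)).mulVec y) - ell y| ≤ N * |Real.log ‖t‖| + C := by
  have hN : 0 < N := i.pos
  have hN1 : (1 : ℝ) ≤ N := by exact_mod_cast hN
  set K : ℝ := 1 + ∑ a, ∑ b, ‖X a b‖ with hK
  have hsum0 : 0 ≤ ∑ a, ∑ b, ‖X a b‖ :=
    Finset.sum_nonneg fun _ _ => Finset.sum_nonneg fun _ _ => norm_nonneg _
  have hK1 : 1 ≤ K := by linarith
  have hXab : ∀ a b, ‖X a b‖ ≤ ∑ a, ∑ b, ‖X a b‖ := by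
    intro a b
    have e1 : ‖X a b‖ ≤ ∑ b, ‖X a b‖ :=
      Finset.single_le_sum (f := fun b => ‖X a b‖) (fun _ _ => norm_nonneg _) (Finset.mem_univ b)
    have e2 : ∑ b, ‖X a b‖ ≤ ∑ a, ∑ b, ‖X a b‖ :=
      Finset.single_le_sum (f := fun a => ∑ b, ‖X a b‖)
        (fun _ _ => Finset.sum_nonneg fun _ _ => norm_nonneg _) (Finset.mem_univ a)
    exact e1.trans e2
  have hent : ∀ t a b, ‖(Matrix.of (rep X i j t)) a b‖ ≤ K * (1 + ‖t‖) := by
    intro t a b
    have hs := norm_nonneg t
    have hb1 : K ≤ K * (1 + ‖t‖) := by nlinarith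
    by_cases hab : a = i ∧ b = j
    · obtain ⟨rfl, rfl⟩ := hab
      have e : (Matrix.of (rep X a b t)) a b = t := by simp [rep]
      rw [e]
      nlinarith
    · have e : (Matrix.of (rep X i j t)) a b = X a b := by
        by_cases ha : a = i
        · subst ha
          have hb : b ≠ j := fun h => hab ⟨rfl, h⟩
          simp [rep, hb]
        · simp [rep, ha]
      rw [e]
      have := hXab a b
      linarith
  refine ⟨N * Real.log 2 + |Real.log (N * K)| + |Real.log (N * ((N.factorial : ℝ) * K ^ N))| +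
    |Real.log ‖D‖|, ?_⟩
  intro t ht y hy
  set A := Matrix.of (rep X i j t) with hA
  have hs : 0 < ‖t‖ := norm_pos_iff.2 ht
  set s := ‖t‖ with hsdef
  have hAD : A.det = D := hdet t
  have hD0 : A.det ≠ 0 := by rw [hAD]; exact hD
  have hAy : A.mulVec y ≠ 0 := by
    intro h
    have h1 : A.adjugate.mulVec (A.mulVec y) = A.det • y := by
      rw [Matrix.mulVec_mulVec, Matrix.adjugate_mul, Matrix.smul_mulVec, Matrix.one_mulVec]
    rw [h, Matrix.mulVec_zero] at h1
    exact (smul_ne_zero hD0 hy) h1.symm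
  have hadj : A.adjugate.mulVec (A.mulVec y) = A.det • y := by
    rw [Matrix.mulVec_mulVec, Matrix.adjugate_mul, Matrix.smul_mulVec, Matrix.one_mulVec]
  have hB1 : 1 ≤ K * (1 + s) := by nlinarith
  have hup := ell_mulVec A (K * (1 + s)) (by linarith) hN (hent t) y hy hAy
  have hadjent : ∀ a b, ‖A.adjugate a b‖ ≤ (N.factorial : ℝ) * (K * (1 + s)) ^ N := by
    intro a b
    rw [Matrix.adjugate_apply]
    have := Matrix.det_le (A := A.updateRow b (Pi.single a 1))
      (abv := NormedField.toAbsoluteValue ℂ) (x := K * (1 + s)) (by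
        intro k l
        change ‖A.updateRow b (Pi.single a 1) k l‖ ≤ _
        rw [Matrix.updateRow_apply]
        split_ifs with hk
        · by_cases hl : l = a
          · subst hl; simpa using hB1
          · rw [Pi.single_eq_of_ne hl, norm_zero]; linarith
        · exact hent t k l)
    rw [nsmul_eq_mul, Fintype.card_fin] at this
    exact this
  have hfac : (0 : ℝ) < N.factorial := by exact_mod_cast N.factorial_pos
  have hlow := ell_mulVec A.adjugate ((N.factorial : ℝ) * (K * (1 + s)) ^ N) (by positivity) hN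
    hadjent (A.mulVec y) hAy (by rw [hadj]; exact smul_ne_zero hD0 hy)
  rw [hadj, ell_smul _ hD0 _ hy, hAD] at hlow
  have hl1 := log_one_add_le s hs
  have e1 : Real.log (N * (K * (1 + s))) = Real.log (N * K) + Real.log (1 + s) := by
    rw [← Real.log_mul (by positivity) (by positivity)]
    congr 1
    ring
  have e2 : Real.log (N * ((N.factorial : ℝ) * (K * (1 + s)) ^ N)) =
      Real.log (N * ((N.factorial : ℝ) * K ^ N)) + N * Real.log (1 + s) := by
    rw [← Real.log_pow, ← Real.log_mul (by positivity) (by positivity)]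
    congr 1
    rw [mul_pow]
    ring
  rw [e1] at hup
  rw [e2] at hlow
  have a1 := le_abs_self (Real.log (N * K))
  have a1' := abs_nonneg (Real.log (N * K))
  have a2 := le_abs_self (Real.log (N * ((N.factorial : ℝ) * K ^ N)))
  have a2' := abs_nonneg (Real.log (N * ((N.factorial : ℝ) * K ^ N)))
  have a3 := neg_abs_le (Real.log ‖D‖)
  have a3' := abs_nonneg (Real.log ‖D‖)
  have hlog2 : 0 < Real.log 2 := Real.log_pos (by norm_num)
  have hl2 : (N : ℝ) * Real.log (1 + s) ≤ N * Real.log 2 + N * max 0 (Real.log s) := by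
    have := mul_le_mul_of_nonneg_left hl1 (by positivity : (0 : ℝ) ≤ N)
    linarith
  have hmx : max 0 (Real.log s) ≤ |Real.log s| := max_le (abs_nonneg _) (le_abs_self _)
  have hmxN : max 0 (Real.log s) ≤ N * |Real.log s| := by
    have := abs_nonneg (Real.log s)
    nlinarith
  have hmxN2 : (N : ℝ) * max 0 (Real.log s) ≤ N * |Real.log s| :=
    mul_le_mul_of_nonneg_left hmx (by positivity)
  have hlN : Real.log 2 ≤ N * Real.log 2 := by nlinarith
  rw [abs_le]
  constructor
  · linarith
  · linarith

theorem pf_ETG (hTG : T_TG) (hTH : T_TH) : T_ETG := by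
  intro k i j hij
  by_cases hi : i = 0
  · subst hi
    have hj : j = 0 := by
      rcases hij with h | h
      · exact absurd rfl h
      · exact h
    subst hj
    filter_upwards [ae_det_cut (k := k) 1 le_rfl, (hTH (k + 1) 0 0).2] with X hX1 hX2
    refine ⟨hX1, ?_⟩
    rw [cof_eq] at hX2
    have hc : (Matrix.of (rep (cut 1 X) 0 0 1)).det -
        (Matrix.of (rep (cut 1 X) 0 0 0)).det ≠ 0 := by
      rw [cof_eq]
      have e : (Matrix.of (cut 1 X)).updateRow 0 (Pi.single 0 (1 : ℂ)) =
          (Matrix.of X).updateRow 0 (Pi.single 0 (1 : ℂ)) := by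
        ext a b
        by_cases ha : a = 0
        · subst ha; rw [Matrix.updateRow_self, Matrix.updateRow_self]
        · rw [Matrix.updateRow_ne ha, Matrix.updateRow_ne ha, Matrix.of_apply, Matrix.of_apply,
            cut_apply, if_neg ha]
      rw [e]
      exact hX2
    obtain ⟨t1, C, h1, h2⟩ := hTG (k + 1) (cut 1 X) 0 0 hc
    exact ⟨t1, C, fun t ht => ⟨fun h => ht ((h1 t).1 h), fun y hy => h2 t ht y hy⟩⟩
  · by_cases hj : j = 0
    · subst hj
      filter_upwards [ae_det_cut (k := k) 1 le_rfl] with X hX1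
      refine ⟨hX1, 0, ?_⟩
      set M := Matrix.of (cut 1 X) with hM
      have hrow : M 0 = (X 0 0) • (Pi.single 0 (1 : ℂ) : Fin (k + 1) → ℂ) := by
        funext b
        rw [hM, Matrix.of_apply, cut_apply, if_pos rfl, Pi.smul_apply, smul_eq_mul]
        by_cases hb : b = 0
        · subst hb; simp
        · have : ¬ (b : ℕ) < 1 := by
            intro h
            apply hb
            ext
            simpa using h
          rw [if_neg this, Pi.single_eq_of_ne hb, mul_zero]
      have hX0 : X 0 0 ≠ 0 := by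
        intro h
        rw [h, zero_smul] at hrow
        exact hX1 (Matrix.det_eq_zero_of_row_eq_zero 0 fun b => by rw [hrow]; rfl)
      have hcof : (M.updateRow i (Pi.single 0 (1 : ℂ))).det = 0 := by
        have h1 : (M.updateRow i (M 0)).det = 0 :=
          Matrix.det_zero_of_row_eq (M := M.updateRow i (M 0)) (i := 0) (j := i) (Ne.symm hi) (by
            rw [Matrix.updateRow_self, Matrix.updateRow_ne (Ne.symm hi)])
        rw [hrow, Matrix.det_updateRow_smul] at h1
        exact (mul_eq_zero.1 h1).resolve_left hX0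
      have hc2 : ∀ t, (Matrix.of (rep (cut 1 X) i 0 t)).det =
          (Matrix.of (rep (cut 1 X) i 0 0)).det := by
        intro t
        rw [det_rep, cof_eq, hcof, mul_zero, add_zero]
      have hself : rep (cut 1 X) i 0 (cut 1 X i 0) = cut 1 X := by
        unfold rep
        rw [Function.update_eq_self, Function.update_eq_self]
      have hD : (Matrix.of (rep (cut 1 X) i 0 0)).det ≠ 0 := by
        rw [← hc2 (cut 1 X i 0), hself]
        exact hX1
      obtain ⟨C, hC⟩ := bound_const (cut 1 X) i 0 _ hD hc2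
      refine ⟨C, fun t ht => ⟨by rw [hc2 t]; exact hD, fun y hy => ?_⟩⟩
      rw [sub_zero]
      exact hC t ht y hy
    · filter_upwards [ae_det_cut (k := k) 1 le_rfl, ae_cof_cut i j hi hj] with X hX1 hX2
      refine ⟨hX1, ?_⟩
      obtain ⟨t1, C, h1, h2⟩ := hTG (k + 1) (cut 1 X) i j (by rw [cof_eq]; exact hX2)
      exact ⟨t1, C, fun t ht => ⟨fun h => ht ((h1 t).1 h), fun y hy => h2 t ht y hy⟩⟩

end Pool.Agent.H95.EHD
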