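import Pool.Agent.H92.EHD.TK
import Pool.Agent.H72.EQ.KL

/-!
Row EKL of ehd_modules: lower bound of the relative lower Jacobian.
-/

namespace Pool.Agent.H95.EHD

open scoped BigOperators ComplexConjugate ContDiff ComplexOrder
open MeasureTheory Pool.Agent.H92.EQ Pool.Agent.H92.EHD Pool.Agent.H72.EQ

/-- the lower block of a product -/
theorem low_mul {k : ℕ} (A B : Matrix (Fin (k + 1)) (Fin (k + 1)) ℂ)
    (hB : ∀ j : Fin k, B 0 j.succ = 0) : low (A * B) = low A * low B := by
  ext i j
  simp only [low, Matrix.submatrix_apply, Matrix.mul_apply, Fin.sum_univ_succ, hB j, mul_zero,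
    zero_add]

theorem jac_zero {k m : ℕ} (G : Fin (k + 1) → MvPolynomial (Fin (k + 1)) ℂ) (hG : IsE m G)
    (x : Fin (k + 1) → ℂ) (j : Fin k) : jac G x 0 j.succ = 0 := by
  change MvPolynomial.eval x (MvPolynomial.pderiv j.succ (G 0)) = 0
  rw [hG.zero, Derivation.leibniz_pow, MvPolynomial.pderiv_X_of_ne (Fin.succ_ne_zero j).symm]
  simp

theorem pf_EKL (hEKB : T_EKB) (hD12 : T_D12) (_hL6 : T_L6) : T_EKL := by
  intro k d F hk hd hF
  obtain ⟨-, -, -, -, hdet, -, -, hiter⟩ := hEKB k d F hk hd hF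
  obtain ⟨C, hC1, hC⟩ := ev_bd F hF.isH
  have hC0 : 0 < C := by linarith
  refine ⟨(C ^ k)⁻¹, by positivity, inv_le_one_of_one_le₀ (one_le_pow₀ hC1), ?_⟩
  intro n x hx
  have hx0 := nrm_ps x hx
  induction n with
  | zero =>
    have h1 : ev (iter F 0) x = x := by
      funext i
      change MvPolynomial.eval x (MvPolynomial.X i) = x i
      rw [MvPolynomial.eval_X]
    have h2 : low (jac (iter F 0) x) = 1 := by
      funext i a
      change MvPolynomial.eval x
        (MvPolynomial.pderiv a.succ (MvPolynomial.X i.succ)) = _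
      rw [MvPolynomial.pderiv_X, Matrix.one_apply]
      by_cases h : i = a
      · subst h; simp
      · rw [if_neg h, Pi.single_apply, if_neg (fun h' => h (Fin.succ_injective _ h'))]; simp
    unfold relL
    rw [h1, h2, Matrix.det_one]
    simp only [pow_zero, Finset.range_zero, Finset.prod_empty, mul_one, norm_one, one_mul]
    rw [div_self (pow_ne_zero _ hx0.ne')]
  | succ n ih =>
    obtain ⟨hH, hev, hjac, -, -⟩ := hD12 (k + 1) d F (by omega) hF.isH 1 n
    set y : Fin (k + 1) → ℂ := ev (iter F n) x with hy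
    have hy0 : y ≠ 0 := fun h => hx (hH.nd x h)
    have hyp := nrm_ps y hy0
    have hFy0 : ev F y ≠ 0 := fun h => hy0 (hF.isH.nd y h)
    have hFyp := nrm_ps (ev F y) hFy0
    have hstep : relL (iter F (n + 1)) x = relL F y * relL (iter F n) x := by
      rw [add_comm n 1]
      unfold relL
      rw [hev x, hjac x, iter_one, low_mul _ _ (jac_zero _ (hiter n) x), Matrix.det_mul,
        norm_mul, ← hy]
      field_simp
    have hlow : (C ^ k)⁻¹ * nv (lowP F) (k * (d - 1)) y ≤ relL F y := by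
      unfold relL nv
      rw [hdet y]
      have h1 : nrm (ev F y) ^ k ≤ C ^ k * nrm y ^ (k * (d - 1)) * nrm y ^ k := by
        calc nrm (ev F y) ^ k ≤ (C * nrm y ^ d) ^ k :=
              pow_le_pow_left₀ (nrm_nn _) (hC y) k
          _ = C ^ k * nrm y ^ (k * (d - 1)) * nrm y ^ k := by
              rw [mul_pow, ← pow_mul, mul_assoc, ← pow_add]
              congr 2
              obtain ⟨e, rfl⟩ := Nat.exists_eq_add_of_le (show 1 ≤ d by omega)
              rw [Nat.add_sub_cancel_left]
              ring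
      rw [le_div_iff₀ (pow_pos hFyp k)]
      have h2 : 0 ≤ (C ^ k)⁻¹ * (‖(low (jac F y)).det‖ / nrm y ^ (k * (d - 1))) := by
        positivity
      refine (mul_le_mul_of_nonneg_left h1 h2).trans (le_of_eq ?_)
      have h3 : nrm y ^ (k * (d - 1)) ≠ 0 := pow_ne_zero _ hyp.ne'
      have h4 : C ^ k ≠ 0 := pow_ne_zero _ hC0.ne'
      field_simp
    rw [hstep, Finset.prod_range_succ, ← hy, pow_succ]
    have hnv0 : 0 ≤ nv (lowP F) (k * (d - 1)) y := by
      unfold nv
      exact div_nonneg (norm_nonneg _) (pow_nonneg (nrm_nn y) _)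
    have hprod0 : 0 ≤ ∏ m ∈ Finset.range n, nv (lowP F) (k * (d - 1)) (ev (iter F m) x) :=
      Finset.prod_nonneg fun m _ => by
        unfold nv
        exact div_nonneg (norm_nonneg _) (pow_nonneg (nrm_nn _) _)
    calc (C ^ k)⁻¹ ^ n * (C ^ k)⁻¹ *
        ((∏ m ∈ Finset.range n, nv (lowP F) (k * (d - 1)) (ev (iter F m) x)) *
          nv (lowP F) (k * (d - 1)) y) =
        ((C ^ k)⁻¹ * nv (lowP F) (k * (d - 1)) y) * ((C ^ k)⁻¹ ^ n *
          ∏ m ∈ Finset.range n, nv (lowP F) (k * (d - 1)) (ev (iter F m) x)) := by ring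
      _ ≤ relL F y * relL (iter F n) x := by
          have hc0 : 0 ≤ (C ^ k)⁻¹ := inv_nonneg.2 (pow_nonneg hC0.le k)
          exact mul_le_mul hlow ih (mul_nonneg (pow_nonneg hc0 n) hprod0)
            (le_trans (mul_nonneg hc0 hnv0) hlow)

end Pool.Agent.H95.EHD
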