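import Pool.Agent.H92.EHD.TR
import Pool.Agent.H95.EHD.ETG

/-!
Row RTG of ehd_modules: generic matrices, an entry of the row `0` moves.
-/

namespace Pool.Agent.H95.EHD

open scoped BigOperators ComplexConjugate ContDiff ComplexOrder
open MeasureTheory Pool.Agent.H92.EQ Pool.Agent.H92.EHD Pool.Agent.H95.EQ

theorem pf_RTG (hTG : T_TG) (hTH : T_TH) : T_RTG := by
  intro k j hj
  have hj1 : 1 ≤ (j : ℕ) := by
    rcases Nat.eq_zero_or_pos (j : ℕ) with h | h
    · exact absurd (Fin.ext h) hj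
    · exact h
  filter_upwards [ae_det_cut (k := k) (j + 1) (by omega), ae_det_cut (k := k) j hj1,
    (hTH (k + 1) 0 j).2] with X hX1 hX2 hX3
  refine ⟨hX1, hX2, ?_⟩
  rw [cof_eq] at hX3
  have hc : (Matrix.of (rep (cut j X) 0 j 1)).det - (Matrix.of (rep (cut j X) 0 j 0)).det ≠ 0 := by
    rw [cof_eq]
    have e : (Matrix.of (cut j X)).updateRow 0 (Pi.single j (1 : ℂ)) =
        (Matrix.of X).updateRow 0 (Pi.single j (1 : ℂ)) := by
      ext a b
      by_cases ha : a = 0
      · subst ha; rw [Matrix.updateRow_self, Matrix.updateRow_self]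
      · rw [Matrix.updateRow_ne ha, Matrix.updateRow_ne ha, Matrix.of_apply, Matrix.of_apply,
          cut_apply, if_neg ha]
    rw [e]
    exact hX3
  obtain ⟨t1, C, h1, h2⟩ := hTG (k + 1) (cut j X) 0 j hc
  have h0 : rep (cut j X) 0 j 0 = cut j X := by
    have : cut j X 0 j = 0 := by
      rw [cut_apply, if_pos rfl, if_neg (lt_irrefl _)]
    unfold rep
    conv_lhs => rw [← this]
    rw [Function.update_eq_self, Function.update_eq_self]
  refine ⟨t1, C, ?_, fun t ht => ⟨fun h => ht ((h1 t).1 h), fun y hy => h2 t ht y hy⟩⟩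
  intro ht
  apply hX2
  rw [← h0]
  exact (h1 0).2 ht.symm

end Pool.Agent.H95.EHD
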